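import Pool.Agent.Helper19.AAR.SignRel

/-!
# YV: the converse: a root `z` in `F (z + q / z)` has an exceptional relation over `F`
-/

set_option autoImplicit false

open Polynomial Finset

namespace Pool.Agent.Helper84.YV

open Pool.Agent.Helper19.AAR (splitF crt)
open Pool.Agent.Helper19.Sign (weil weil_monic)
open IntermediateField

theorem conv_aux (q : ℕ) (P : ℤ[X]) (hP : P ≠ 0) (E : IntermediateField ℚ ℂ) (z : ℂ)
    (hz : z ∈ crt P) (hne : z ^ 2 ≠ q) (hz0 : z ≠ 0) (hq : (q : ℂ) ≠ 0)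
    (hzF : z ∈ E ⊔ IntermediateField.adjoin ℚ {z + (q : ℂ) / z}) :
    ∃ (n : ℂ → ℤ) (N : ℕ), N ≠ 0 ∧ (∏ w ∈ crt P, w ^ n w) ^ N ∈ E ∧ n z ≠ n (q / z) := by
  classical
  have hPC : P.map (Int.castRingHom ℂ) ≠ 0 :=
    (Polynomial.map_ne_zero_iff (Int.castRingHom ℂ).injective_int).2 hP
  have hmem : ∀ w : ℂ, w ∈ crt P ↔ aeval w P = 0 := by
    intro w
    rw [crt, Multiset.mem_toFinset, mem_roots hPC, IsRoot.def, eval_map, aeval_def]
    constructor
    · intro h; rw [← h]; congr 1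
    · intro h; rw [← h]; congr 1
  have hzP : aeval z P = 0 := (hmem z).1 hz
  have hPE : P.map (Int.castRingHom E) ≠ 0 :=
    (Polynomial.map_ne_zero_iff (Int.castRingHom E).injective_int).2 hP
  have hev : ∀ w : ℂ, aeval w (P.map (Int.castRingHom E)) = aeval w P := by
    intro w
    rw [aeval_def, eval₂_map, aeval_def]
    congr 1
  have hint : IsIntegral E z := by
    rw [← isAlgebraic_iff_isIntegral]
    exact ⟨P.map (Int.castRingHom E), hPE, by rw [hev]; exact hzP⟩
  have hdvd : minpoly E z ∣ P.map (Int.castRingHom E) := by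
    apply minpoly.dvd
    rw [hev]
    exact hzP
  set μ : ℂ[X] := (minpoly E z).map (algebraMap E ℂ) with hμ
  have hμm : μ.Monic := (minpoly.monic hint).map _
  have hmemμ : ∀ w : ℂ, w ∈ μ.roots ↔ aeval w (minpoly E z) = 0 := by
    intro w
    rw [mem_roots hμm.ne_zero, IsRoot.def, hμ, eval_map_algebraMap]
  have hsub : μ.roots.toFinset ⊆ crt P := by
    intro w hw
    rw [Multiset.mem_toFinset, hmemμ] at hw
    rw [hmem, ← hev]
    obtain ⟨R, hR⟩ := hdvd
    rw [hR, map_mul, hw, zero_mul]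
  have hnd : μ.roots.Nodup := by
    apply nodup_roots
    exact (minpoly.irreducible hint).separable.map
  have hprod : μ.roots.prod ∈ E := by
    have h1 := (IsAlgClosed.splits μ).coeff_zero_eq_prod_roots_of_monic hμm
    have h2 : μ.coeff 0 ∈ E := by
      rw [hμ, coeff_map]
      exact ((minpoly E z).coeff 0).2
    have h3 : μ.roots.prod = (-1) ^ μ.natDegree * μ.coeff 0 := by
      rw [h1, ← mul_assoc, ← mul_pow]
      norm_num
    rw [h3]
    exact mul_mem (pow_mem (neg_mem (one_mem E)) _) h2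
  have hzμ : z ∈ μ.roots := (hmemμ z).2 (minpoly.aeval E z)
  have hqμ : (q : ℂ) / z ∉ μ.roots := by
    intro hcon
    have hcon' : (q : ℂ) / z ∈ (minpoly E z).aroots ℂ := hcon
    let σ : E⟮z⟯ →ₐ[E] ℂ := (IntermediateField.algHomAdjoinIntegralEquiv E hint).symm
      ⟨(q : ℂ) / z, hcon'⟩
    have hσ : σ (AdjoinSimple.gen E z) = (q : ℂ) / z :=
      IntermediateField.algHomAdjoinIntegralEquiv_symm_apply_gen E hint ⟨(q : ℂ) / z, hcon'⟩
    have hgen : algebraMap E⟮z⟯ ℂ (AdjoinSimple.gen E z) = z := AdjoinSimple.algebraMap_gen E z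
    let M : IntermediateField ℚ ℂ :=
      { carrier := {x | ∃ y : E⟮z⟯, algebraMap E⟮z⟯ ℂ y = x ∧ σ y = x}
        mul_mem' := by
          rintro a b ⟨y, hy, hy'⟩ ⟨w, hw, hw'⟩
          exact ⟨y * w, by rw [map_mul, hy, hw], by rw [map_mul, hy', hw']⟩
        add_mem' := by
          rintro a b ⟨y, hy, hy'⟩ ⟨w, hw, hw'⟩
          exact ⟨y + w, by rw [map_add, hy, hw], by rw [map_add, hy', hw']⟩
        algebraMap_mem' := by
          intro r
          refine ⟨(r : E⟮z⟯), ?_, ?_⟩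
          · rw [map_ratCast, eq_ratCast]
          · rw [map_ratCast, eq_ratCast]
        inv_mem' := by
          rintro a ⟨y, hy, hy'⟩
          exact ⟨y⁻¹, by rw [map_inv₀, hy], by rw [map_inv₀, hy']⟩ }
    have hEM : E ≤ M := by
      intro x hx
      refine ⟨algebraMap E E⟮z⟯ ⟨x, hx⟩, ?_, ?_⟩
      · rw [← IsScalarTower.algebraMap_apply]
        rfl
      · rw [AlgHom.commutes]
        rfl
    have htM : IntermediateField.adjoin ℚ {z + (q : ℂ) / z} ≤ M := by
      rw [IntermediateField.adjoin_simple_le_iff]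
      refine ⟨AdjoinSimple.gen E z + (q : E⟮z⟯) / AdjoinSimple.gen E z, ?_, ?_⟩
      · rw [map_add, map_div₀, hgen, map_natCast]
      · rw [map_add, map_div₀, hσ, map_natCast]
        rw [div_div_cancel₀ hq, add_comm]
    obtain ⟨y, hy, hy'⟩ := (sup_le hEM htM) hzF
    have hyg : y = AdjoinSimple.gen E z := (algebraMap E⟮z⟯ ℂ).injective (hy.trans hgen.symm)
    rw [hyg, hσ] at hy'
    apply hne
    rw [div_eq_iff hz0] at hy'
    rw [hy', pow_two]
  refine ⟨fun w => if w ∈ μ.roots.toFinset then 1 else 0, 1, one_ne_zero, ?_, ?_⟩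
  · rw [pow_one]
    have h1 : ∏ w ∈ crt P, w ^ (if w ∈ μ.roots.toFinset then (1 : ℤ) else 0) =
        ∏ w ∈ μ.roots.toFinset, w := by
      rw [← Finset.prod_subset hsub]
      · refine Finset.prod_congr rfl fun w hw => ?_
        rw [if_pos hw, zpow_one]
      · intro w _ hw
        rw [if_neg hw, zpow_zero]
    rw [h1]
    have h2 : ∏ w ∈ μ.roots.toFinset, w = μ.roots.prod := by
      rw [Finset.prod_multiset_count]
      refine Finset.prod_congr rfl fun w hw => ?_
      rw [Multiset.count_eq_one_of_mem hnd (Multiset.mem_toFinset.1 hw), pow_one]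
    rw [h2]
    exact hprod
  · show (if z ∈ μ.roots.toFinset then (1 : ℤ) else 0) ≠
      (if (q : ℂ) / z ∈ μ.roots.toFinset then (1 : ℤ) else 0)
    rw [if_pos (Multiset.mem_toFinset.2 hzμ), if_neg (fun h => hqμ (Multiset.mem_toFinset.1 h))]
    norm_num

theorem conv (q : ℕ) (h : ℤ[X]) (hq : 0 < q) (hm : h.Monic) (hirr : Irreducible (weil (q : ℤ) h))
    (f : ℤ[X]) (_hf : f ≠ 0) (z : ℂ) (hz : z ∈ crt (weil (q : ℤ) h)) (hne : z ^ 2 ≠ q)
    (hzF : z ∈ splitF f ⊔ IntermediateField.adjoin ℚ {z + (q : ℂ) / z}) :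
    ∃ (n : ℂ → ℤ) (N : ℕ), N ≠ 0 ∧ (∏ w ∈ crt (weil (q : ℤ) h), w ^ n w) ^ N ∈ splitF f ∧
      n z ≠ n (q / z) := by
  have hq0 : (q : ℂ) ≠ 0 := Nat.cast_ne_zero.2 hq.ne'
  have hfm : (weil (q : ℤ) h).Monic := (weil_monic (q : ℤ) h hm).1
  have hz0 : z ≠ 0 := by
    rintro rfl
    have h0 : aeval (0 : ℂ) (weil (q : ℤ) h) = 0 := by
      rw [crt, Multiset.mem_toFinset, mem_roots (hfm.map _).ne_zero, IsRoot.def, eval_map] at hz
      rw [aeval_def, ← hz]
      congr 1
    have h2 : (weil (q : ℤ) h).coeff 0 = 0 := by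
      rw [aeval_def, eval₂_at_zero] at h0
      simpa using h0
    have h3 : X ∣ weil (q : ℤ) h := X_dvd_iff.2 h2
    have h4 : Associated X (weil (q : ℤ) h) := irreducible_X.associated_of_dvd hirr h3
    have h5 := Polynomial.degree_eq_degree_of_associated h4
    rw [degree_X] at h5
    have h6 : (weil (q : ℤ) h).natDegree = 1 := natDegree_eq_of_degree_eq_some h5.symm
    have h7 : (weil (q : ℤ) h).natDegree = 2 * h.natDegree := (weil_monic (q : ℤ) h hm).2
    omega
  exact conv_aux q (weil (q : ℤ) h) hfm.ne_zero (splitF f) z hz hne hz0 hq0 hzF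

end Pool.Agent.Helper84.YV
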