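import Pool.Agent.Helper19.AAR.SignRel

/-!
# YV: no root of the Frobenius polynomial of an absolutely simple class is a square root of `q`
-/

set_option autoImplicit false

open Polynomial Finset

namespace Pool.Agent.Helper84.YV

open Pool.Agent.Helper19.AAR (crt)
open Pool.Agent.Helper19.Sign (weil weil_monic weil_map eval_weil)

theorem sq_ne (q : ℕ) (h : ℤ[X]) (hq : 0 < q) (hm : h.Monic) (hirr : Irreducible (weil (q : ℤ) h))
    (z : ℂ) (hz : z ∈ crt (weil (q : ℤ) h)) : z ^ 2 ≠ q := by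
  intro hzq
  have hfm : (weil (q : ℤ) h).Monic := (weil_monic (q : ℤ) h hm).1
  have hdeg : (weil (q : ℤ) h).natDegree = 2 * h.natDegree := (weil_monic (q : ℤ) h hm).2
  have hmem : ∀ w : ℂ, w ∈ crt (weil (q : ℤ) h) ↔ aeval w (weil (q : ℤ) h) = 0 := by
    intro w
    rw [crt, Multiset.mem_toFinset, mem_roots (hfm.map _).ne_zero, IsRoot.def, eval_map, aeval_def]
    constructor
    · intro h; rw [← h]; congr 1
    · intro h; rw [← h]; congr 1
  have hirrQ : Irreducible ((weil (q : ℤ) h).map (Int.castRingHom ℚ)) :=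
    (hfm.irreducible_iff_irreducible_map_fraction_map (K := ℚ)).1 hirr
  have hev : ∀ w : ℂ, aeval w ((weil (q : ℤ) h).map (Int.castRingHom ℚ)) =
      aeval w (weil (q : ℤ) h) := by
    intro w
    rw [aeval_def, eval₂_map, aeval_def]
    congr 1
  have hmin : minpoly ℚ z = (weil (q : ℤ) h).map (Int.castRingHom ℚ) := by
    refine (minpoly.eq_of_irreducible_of_monic hirrQ ?_ (hfm.map _)).symm
    rw [hev]
    exact (hmem z).1 hz
  have hdvd : (weil (q : ℤ) h).map (Int.castRingHom ℚ) ∣ X ^ 2 - C (q : ℚ) := by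
    rw [← hmin]
    apply minpoly.dvd
    rw [map_sub, map_pow, aeval_X, aeval_C, hzq]
    simp
  have hd1 : ((weil (q : ℤ) h).map (Int.castRingHom ℚ)).natDegree = 2 * h.natDegree := by
    rw [hfm.natDegree_map, hdeg]
  have hpos : 0 < ((weil (q : ℤ) h).map (Int.castRingHom ℚ)).natDegree :=
    hirrQ.natDegree_pos
  have heq : (weil (q : ℤ) h).map (Int.castRingHom ℚ) = X ^ 2 - C (q : ℚ) := by
    refine (Polynomial.eq_of_monic_of_dvd_of_natDegree_le (hfm.map _)
      (monic_X_pow_sub_C _ two_ne_zero) hdvd ?_).symm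
    rw [natDegree_X_pow_sub_C]
    omega
  have hneg : -z ∈ crt (weil (q : ℤ) h) := by
    rw [hmem, ← hev, heq, map_sub, map_pow, aeval_X, aeval_C, neg_sq, hzq]
    simp
  have hq0 : (q : ℂ) ≠ 0 := Nat.cast_ne_zero.2 hq.ne'
  have hz0 : z ≠ 0 := by
    rintro rfl
    apply hq0
    rw [← hzq]
    norm_num
  have hd2 : h.natDegree = 1 := by
    have h3 := congrArg natDegree heq
    rw [hd1, natDegree_X_pow_sub_C] at h3
    omega
  have hroot : ∀ w : ℂ, w ≠ 0 → aeval w (weil (q : ℤ) h) = 0 → aeval (w + (q : ℂ) / w) h = 0 := by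
    intro w hw hw'
    have h2 : weil (((q : ℤ) : ℂ)) (h.map (Int.castRingHom ℂ)) =
        (weil (q : ℤ) h).map (Int.castRingHom ℂ) := by
      rw [weil_map _ _ _ (hm.natDegree_map _)]
      rfl
    have h3 : (weil (((q : ℤ) : ℂ)) (h.map (Int.castRingHom ℂ))).eval w = 0 := by
      rw [h2, eval_map, ← hw', aeval_def]
      congr 1
    rw [eval_weil _ _ _ hw, mul_eq_zero, or_iff_right (pow_ne_zero _ hw), eval_map] at h3
    rw [aeval_def, ← h3]
    congr 1
  have h1 := hroot z hz0 ((hmem z).1 hz)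
  have h2 := hroot (-z) (neg_ne_zero.2 hz0) ((hmem _).1 hneg)
  have hqz : (q : ℂ) / z = z := by
    rw [div_eq_iff hz0, ← hzq, pow_two]
  rw [hqz] at h1
  rw [div_neg, hqz] at h2
  -- `h = X + C c`
  have h4 : h = X + C (h.coeff 0) := by
    have h5 := hm.eq_X_add_C hd2
    exact h5
  rw [h4, map_add, aeval_X, aeval_C] at h1 h2
  apply hz0
  have h6 : (4 : ℂ) * z = 0 := by linear_combination h1 - h2
  exact (mul_eq_zero.1 h6).resolve_left (by norm_num)

end Pool.Agent.Helper84.YV
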